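import Mathlib

/-! The limiting generalized eigenvalue of fBM covariance matrices is positive. -/

namespace Pool.Agent.Results.MP_271f9a_pr.Holds

open MeasureTheory Set Filter Topology Real

/-- The fBM covariance `R_H(s,t)` with `2H = γ`. -/
noncomputable def R (γ s t : ℝ) : ℝ := (|s| ^ γ + |t| ^ γ - |s - t| ^ γ) / 2

/-- The Hermitian form `a^* M a` of the `N × N` matrix with entries `M(i,j)`, `1 ≤ i,j ≤ N`. -/
noncomputable def form (M : ℝ → ℝ → ℝ) {N : ℕ} (a : Fin N → ℂ) : ℝ :=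
  (∑ i : Fin N, ∑ j : Fin N, (starRingEnd ℂ) (a i) * (M ((i : ℕ) + 1) ((j : ℕ) + 1) : ℂ) * a j).re

/-- `κ(γ, N)`: the infimum over `a ≠ 0` of `a^* R^{∘2} a / a^* R a`. -/
noncomputable def kappa (γ : ℝ) (N : ℕ) : ℝ :=
  sInf {q | ∃ a : Fin N → ℂ, a ≠ 0 ∧ q = form (fun s t => R γ s t ^ 2) a / form (R γ) a}

/-- Real quadratic form. -/
noncomputable def Q (M : ℝ → ℝ → ℝ) {N : ℕ} (x : Fin N → ℝ) : ℝ :=
  ∑ i : Fin N, ∑ j : Fin N, x i * M ((i : ℕ) + 1) ((j : ℕ) + 1) * x j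

lemma form_eq (M : ℝ → ℝ → ℝ) {N : ℕ} (a : Fin N → ℂ) :
    form M a = Q M (fun i => (a i).re) + Q M fun i => (a i).im := by
  simp only [form, Q, Complex.re_sum, ← Finset.sum_add_distrib]
  refine Finset.sum_congr rfl fun i _ => Finset.sum_congr rfl fun j _ => ?_
  simp

lemma int0 {γ : ℝ} (h0 : 0 < γ) (h2 : γ < 2) :
    IntegrableOn (fun u : ℝ => (1 - cos u) * u ^ (-γ - 1)) (Ioi 0) := by
  have hm : Measurable fun u : ℝ => (1 - cos u) * u ^ (-γ - 1) :=
    (measurable_const.sub Real.measurable_cos).mul (measurable_id.pow_const _)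
  rw [← Ioc_union_Ioi_eq_Ioi zero_le_one]
  refine IntegrableOn.union ?_ ?_
  · have := (intervalIntegral.intervalIntegrable_rpow' (a := 0) (b := 1) (r := 1 - γ)
      (by linarith)).1
    refine Integrable.mono' this hm.aestronglyMeasurable ?_
    filter_upwards [ae_restrict_mem measurableSet_Ioc] with u hu
    have h1 : 0 ≤ 1 - cos u := sub_nonneg.2 (cos_le_one u)
    have h3 : 1 - cos u ≤ u ^ (2 : ℝ) := by
      have := Real.one_sub_sq_div_two_le_cos (x := u)
      rw [rpow_two]; nlinarith [sq_nonneg u]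
    rw [Real.norm_of_nonneg (mul_nonneg h1 (rpow_nonneg hu.1.le _)),
      show 1 - γ = 2 + (-γ - 1) by ring, rpow_add hu.1]
    exact mul_le_mul_of_nonneg_right h3 (rpow_nonneg hu.1.le _)
  · have := (integrableOn_Ioi_rpow_of_lt (a := -γ - 1) (by linarith) one_pos).const_mul 2
    refine Integrable.mono' this hm.aestronglyMeasurable ?_
    filter_upwards [ae_restrict_mem measurableSet_Ioi] with u hu
    have hu0 : (0 : ℝ) ≤ u := zero_le_one.trans (le_of_lt hu)
    have h1 : 0 ≤ 1 - cos u := sub_nonneg.2 (cos_le_one u)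
    rw [Real.norm_of_nonneg (mul_nonneg h1 (rpow_nonneg hu0 _))]
    exact mul_le_mul_of_nonneg_right (by linarith [neg_one_le_cos u]) (rpow_nonneg hu0 _)

/-- The normalizing integral. -/
noncomputable def I (γ : ℝ) : ℝ := ∫ u in Ioi (0 : ℝ), (1 - cos u) * u ^ (-γ - 1)

lemma rep {γ : ℝ} (h0 : 0 < γ) (h2 : γ < 2) (x : ℝ) :
    IntegrableOn (fun u : ℝ => (1 - cos (x * u)) * u ^ (-γ - 1)) (Ioi 0) ∧
      ∫ u in Ioi (0 : ℝ), (1 - cos (x * u)) * u ^ (-γ - 1) = |x| ^ γ * I γ := by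
  have e : ∀ u, cos (x * u) = cos (|x| * u) := by
    intro u
    rcases abs_choice x with h | h <;> simp [h]
  simp_rw [e]
  rcases (abs_nonneg x).eq_or_lt with h | h
  · simp [← h, zero_rpow h0.ne']
  generalize |x| = y at h
  have e2 : EqOn (fun u : ℝ => y ^ (γ + 1) * ((1 - cos (y * u)) * (y * u) ^ (-γ - 1)))
      (fun u => (1 - cos (y * u)) * u ^ (-γ - 1)) (Ioi 0) := by
    intro u hu
    have : y ^ (γ + 1) * y ^ (-γ - 1) = 1 := by
      rw [← rpow_add h]; simp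
    simp only [mul_rpow h.le (le_of_lt hu)]
    linear_combination ((1 - cos (y * u)) * u ^ (-γ - 1)) * this
  constructor
  · have := (integrableOn_Ioi_comp_mul_left_iff (fun u : ℝ => (1 - cos u) * u ^ (-γ - 1)) 0 h).2
      (by rw [mul_zero]; exact int0 h0 h2)
    exact IntegrableOn.congr_fun (this.const_mul _) e2 measurableSet_Ioi
  · rw [← setIntegral_congr_fun measurableSet_Ioi e2, integral_const_mul,
      integral_comp_mul_left_Ioi (fun u : ℝ => (1 - cos u) * u ^ (-γ - 1)) 0 h, mul_zero,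
      rpow_add_one h.ne', smul_eq_mul, I]
    field_simp

lemma J (m : ℤ) : ∫ u in (0 : ℝ)..2 * π, cos (m * u) = if m = 0 then 2 * π else 0 := by
  split_ifs with h
  · simp [h]
  · have h' : (m : ℝ) ≠ 0 := by exact_mod_cast h
    rw [intervalIntegral.integral_comp_mul_left (fun u => cos u) h', integral_cos, mul_zero,
      sin_zero, show (m : ℝ) * (2 * π) = ((2 * m : ℤ) : ℝ) * π by push_cast; ring, sin_int_mul_pi]
    simp

lemma lower {γ : ℝ} (h0 : 0 < γ) (h2 : γ < 2) {N : ℕ} (x : Fin N → ℝ) (k : ℤ) (τ : ℝ) :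
    (2 * π) ^ (-γ - 1) * (2 * τ * (∑ i : Fin N, x i * ((if k = 0 then 2 * π else 0) -
      ((if ((i : ℕ) + 1 + k : ℤ) = 0 then 2 * π else 0) +
        if ((i : ℕ) + 1 - k : ℤ) = 0 then 2 * π else 0) / 2)) - 2 * π * τ ^ 2) ≤
      2 * I γ * Q (R γ) x := by
  have hpi := pi_pos
  set y : ℝ → ℝ := fun u => ∑ i : Fin N, x i * (1 - cos ((((i : ℕ) : ℝ) + 1) * u)) with hy
  set z : ℝ → ℝ := fun u => ∑ i : Fin N, x i * sin ((((i : ℕ) : ℝ) + 1) * u) with hz
  set G : Fin N → Fin N → ℝ → ℝ := fun i j u => x i * x j *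
    ((1 - cos ((((i : ℕ) : ℝ) + 1) * u)) * u ^ (-γ - 1) +
      (1 - cos ((((j : ℕ) : ℝ) + 1) * u)) * u ^ (-γ - 1) -
      (1 - cos (((((i : ℕ) : ℝ) + 1) - (((j : ℕ) : ℝ) + 1)) * u)) * u ^ (-γ - 1)) with hG
  have hGi : ∀ i j, IntegrableOn (G i j) (Ioi 0) := fun i j =>
    (((rep h0 h2 _).1.add (rep h0 h2 _).1).sub (rep h0 h2 _).1).const_mul _
  have e1 : ∀ u, (y u ^ 2 + z u ^ 2) * u ^ (-γ - 1) = ∑ i, ∑ j, G i j u := by
    intro u
    simp only [hy, hz, hG]
    rw [sq, sq, Finset.sum_mul_sum, Finset.sum_mul_sum]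
    simp only [← Finset.sum_add_distrib, Finset.sum_mul]
    refine Finset.sum_congr rfl fun i _ => Finset.sum_congr rfl fun j _ => ?_
    rw [sub_mul (_ + 1), cos_sub]; ring
  have hF : IntegrableOn (fun u => (y u ^ 2 + z u ^ 2) * u ^ (-γ - 1)) (Ioi 0) := by
    simp_rw [e1]
    exact integrable_finsetSum _ fun i _ => integrable_finsetSum _ fun j _ => hGi i j
  have e2 : ∫ u in Ioi (0 : ℝ), (y u ^ 2 + z u ^ 2) * u ^ (-γ - 1) = 2 * I γ * Q (R γ) x := by
    simp_rw [e1]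
    rw [integral_finsetSum _ fun i _ => integrable_finsetSum _ fun j _ => hGi i j, Q,
      Finset.mul_sum]
    refine Finset.sum_congr rfl fun i _ => ?_
    rw [integral_finsetSum _ fun j _ => hGi i j, Finset.mul_sum]
    refine Finset.sum_congr rfl fun j _ => ?_
    simp only [hG]
    rw [integral_const_mul, integral_sub ((rep h0 h2 _).1.fun_add (rep h0 h2 _).1) (rep h0 h2 _).1,
      integral_add (rep h0 h2 _).1 (rep h0 h2 _).1, (rep h0 h2 _).2, (rep h0 h2 _).2,
      (rep h0 h2 _).2, R]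
    ring
  have e3 : ∫ u in (0 : ℝ)..2 * π, y u * cos (k * u) = ∑ i : Fin N, x i *
      ((if k = 0 then 2 * π else 0) - ((if ((i : ℕ) + 1 + k : ℤ) = 0 then 2 * π else 0) +
        if ((i : ℕ) + 1 - k : ℤ) = 0 then 2 * π else 0) / 2) := by
    simp only [hy, Finset.sum_mul]
    rw [intervalIntegral.integral_finsetSum fun i _ => Continuous.intervalIntegrable
      (by fun_prop) _ _]
    refine Finset.sum_congr rfl fun i _ => ?_
    rw [← J, ← J, ← J, ← intervalIntegral.integral_add, ← intervalIntegral.integral_div,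
      ← intervalIntegral.integral_sub, ← intervalIntegral.integral_const_mul]
    · refine intervalIntegral.integral_congr fun u _ => ?_
      push_cast
      rw [add_mul _ (k : ℝ), sub_mul _ (k : ℝ), cos_add, cos_sub]; ring
    all_goals exact Continuous.intervalIntegrable (by fun_prop) _ _
  have hyc : Continuous y := by simp only [hy]; fun_prop
  have e4 : ∫ u in (0 : ℝ)..2 * π, (2 * π) ^ (-γ - 1) * (2 * τ * (y u * cos (k * u)) - τ ^ 2) =
      (2 * π) ^ (-γ - 1) * (2 * τ * (∫ u in (0 : ℝ)..2 * π, y u * cos (k * u)) - 2 * π * τ ^ 2) := by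
    rw [intervalIntegral.integral_const_mul, intervalIntegral.integral_sub
      (Continuous.intervalIntegrable (by fun_prop) _ _) (by simp),
      intervalIntegral.integral_const_mul]
    simp
  rw [← e3, ← e4, ← e2, intervalIntegral.integral_of_le (by positivity)]
  refine le_trans (setIntegral_mono_on ?_ (hF.mono_set Ioc_subset_Ioi_self) measurableSet_Ioc
    fun u hu => ?_) (setIntegral_mono_set hF ?_ (Eventually.of_forall Ioc_subset_Ioi_self))
  · exact (Continuous.integrableOn_Icc (by fun_prop)).mono_set Ioc_subset_Icc_self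
  · have h3 : (2 * π) ^ (-γ - 1) ≤ u ^ (-γ - 1) :=
      rpow_le_rpow_of_nonpos hu.1 hu.2 (by linarith)
    have h4 : 2 * τ * (y u * cos (k * u)) - τ ^ 2 ≤ y u ^ 2 + z u ^ 2 := by
      nlinarith [sq_nonneg (y u - τ * cos (k * u)), sq_nonneg (z u),
        mul_le_mul_of_nonneg_left (cos_sq_le_one (k * u)) (sq_nonneg τ)]
    calc _ ≤ (2 * π) ^ (-γ - 1) * (y u ^ 2 + z u ^ 2) := by gcongr
      _ ≤ _ := by rw [mul_comm]; gcongr
  · filter_upwards [ae_restrict_mem measurableSet_Ioi] with u hu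
    exact mul_nonneg (by positivity) (rpow_nonneg (le_of_lt hu) _)

lemma key {γ : ℝ} (h0 : 0 < γ) (h2 : γ < 2) : ∃ c > 0, ∀ (N : ℕ) (x : Fin N → ℝ),
    c * (∑ i, x i) ^ 2 ≤ Q (R γ) x ∧ ∀ k, c * x k ^ 2 ≤ Q (R γ) x := by
  have hpi := pi_pos
  obtain ⟨K, hK⟩ : ∃ K, K = (2 * π) ^ (-γ - 1) := ⟨_, rfl⟩
  have hK0 : 0 < K := by rw [hK]; positivity
  have h1 : ∀ (N : ℕ) (x : Fin N → ℝ), K * (2 * π * (∑ i, x i) ^ 2) ≤ 2 * I γ * Q (R γ) x := by
    intro N x
    have := lower h0 h2 x 0 (∑ i, x i)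
    have e : ∀ i : Fin N, ¬ (((i : ℕ) : ℤ) + 1 = 0) := fun i => by omega
    simp only [if_true, add_zero, sub_zero, e, if_false, zero_div, ← Finset.sum_mul, ← hK] at this
    convert this using 2
    ring
  have h3 : ∀ (N : ℕ) (x : Fin N → ℝ) k, K * (π / 2 * x k ^ 2) ≤ 2 * I γ * Q (R γ) x := by
    intro N x k
    have := lower h0 h2 x ((k : ℕ) + 1) (-x k / 2)
    have e : ∀ i : Fin N, ¬ (((i : ℕ) : ℤ) + 1 + ((k : ℕ) + 1) = 0) := fun i => by omega
    have e' : ¬ (((k : ℕ) : ℤ) + 1 = 0) := by omega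
    have e'' : ∀ i : Fin N, (((i : ℕ) : ℤ) + 1 - ((k : ℕ) + 1) = 0) ↔ i = k := fun i => by
      rw [Fin.ext_iff]; omega
    simp only [e, e', e'', if_false, zero_add, zero_sub, ← hK] at this
    rw [Finset.sum_eq_single k (fun i _ hi => by simp [hi]) (by simp)] at this
    simp only [if_true] at this
    convert this using 2
    ring
  have hI : 0 < I γ := by
    have := h1 1 fun _ => 1
    simp [Q, R, zero_rpow h0.ne'] at this
    nlinarith [mul_pos hK0 hpi]
  refine ⟨K * (π / 2) / (2 * I γ), by positivity, fun N x => ⟨?_, fun k => ?_⟩⟩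
  · rw [div_mul_eq_mul_div, div_le_iff₀ (by positivity)]
    nlinarith [h1 N x, mul_nonneg (mul_pos hK0 hpi).le (sq_nonneg (∑ i, x i))]
  · rw [div_mul_eq_mul_div, div_le_iff₀ (by positivity)]
    nlinarith [h3 N x k]

lemma psd {N : ℕ} {M : ℝ → ℝ → ℝ} (hs : ∀ s t, M s t = M t s) :
    (Matrix.of fun i j : Fin N => M ((i : ℕ) + 1) ((j : ℕ) + 1)).PosSemidef ↔
      ∀ x : Fin N → ℝ, 0 ≤ Q M x := by
  rw [Matrix.posSemidef_iff_dotProduct_mulVec, and_iff_right]
  · refine forall_congr' fun x => ?_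
    simp only [Q, dotProduct, Matrix.mulVec, star_trivial, Matrix.of_apply, Finset.mul_sum,
      mul_assoc]
  · ext i j
    simp [hs]

lemma schur {γ c : ℝ} (hc : 0 < c) {N : ℕ} (h : ∀ x : Fin N → ℝ, c * (∑ i, x i) ^ 2 ≤ Q (R γ) x)
    (x : Fin N → ℝ) : c * Q (R γ) x ≤ Q (fun s t => R γ s t ^ 2) x := by
  have hs : ∀ s t, R γ s t = R γ t s := fun s t => by rw [R, R, abs_sub_comm, add_comm]
  have h1 := (psd (N := N) hs).2 fun x => le_trans (by positivity) (h x)
  have h2 := (psd (N := N) (M := fun s t => R γ s t - c) fun s t => by rw [hs]).2 fun x => by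
    have := h x
    rw [sq, Finset.sum_mul_sum] at this
    simp only [Q, Finset.mul_sum] at this ⊢
    rw [← sub_nonneg, ← Finset.sum_sub_distrib] at this
    refine this.trans_eq (Finset.sum_congr rfl fun i _ => ?_)
    rw [← Finset.sum_sub_distrib]
    exact Finset.sum_congr rfl fun j _ => by ring
  have h3 := (psd (N := N) (M := fun s t => R γ s t * (R γ s t - c)) fun s t => by rw [hs]).1
    (h1.hadamard h2) x
  simp only [Q, Finset.mul_sum] at h3 ⊢
  rw [← sub_nonneg, ← Finset.sum_sub_distrib]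
  refine h3.trans_eq (Finset.sum_congr rfl fun i _ => ?_)
  rw [← Finset.sum_sub_distrib]
  exact Finset.sum_congr rfl fun j _ => by ring

lemma form_snoc (M : ℝ → ℝ → ℝ) {N : ℕ} (a : Fin N → ℂ) :
    form M (Fin.snoc a 0 : Fin (N + 1) → ℂ) = form M a := by
  simp [form, Fin.sum_univ_castSucc]

theorem result (γ : ℝ) (h0 : 0 < γ) (h2 : γ < 2) :
    (∀ (N : ℕ) (a : Fin N → ℂ), a ≠ 0 → 0 < form (R γ) a) ∧
      ∃ L : ℝ, 0 < L ∧ Tendsto (kappa γ) atTop (𝓝 L) := by
  obtain ⟨c, hc, h⟩ := key h0 h2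
  have hpos : ∀ (N : ℕ) (a : Fin N → ℂ), a ≠ 0 → 0 < form (R γ) a := by
    intro N a ha
    obtain ⟨k, hk⟩ := Function.ne_iff.1 ha
    have h1 := (h N fun i => (a i).re).2 k
    have h3 := (h N fun i => (a i).im).2 k
    have h4 := Complex.normSq_pos.2 hk
    rw [Complex.normSq_apply] at h4
    rw [form_eq]
    nlinarith [mul_pos hc h4]
  have hlow : ∀ N : ℕ, c ∈ lowerBounds {q | ∃ a : Fin N → ℂ, a ≠ 0 ∧
      q = form (fun s t => R γ s t ^ 2) a / form (R γ) a} := by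
    rintro N q ⟨a, ha, rfl⟩
    rw [le_div_iff₀ (hpos N a ha), form_eq, form_eq, mul_add]
    exact add_le_add (schur hc (fun x => (h N x).1) _) (schur hc (fun x => (h N x).1) _)
  have hne : ∀ N : ℕ, {q | ∃ a : Fin (N + 1) → ℂ, a ≠ 0 ∧
      q = form (fun s t => R γ s t ^ 2) a / form (R γ) a}.Nonempty := fun N =>
    ⟨_, fun _ => 1, fun h => one_ne_zero (congrFun h 0), rfl⟩
  have hanti : Antitone fun N => kappa γ (N + 1) := by
    refine antitone_nat_of_succ_le fun N => csInf_le_csInf ⟨c, hlow _⟩ (hne N) ?_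
    rintro q ⟨a, ha, rfl⟩
    refine ⟨Fin.snoc a 0, fun h => ha (funext fun i => ?_), by rw [form_snoc, form_snoc]⟩
    simpa using congrFun h i.castSucc
  have hb : ∀ N, c ≤ kappa γ (N + 1) := fun N => le_csInf (hne N) (hlow _)
  refine ⟨hpos, ⨅ N, kappa γ (N + 1), hc.trans_le (le_ciInf hb), ?_⟩
  exact (tendsto_add_atTop_iff_nat 1).1
    (tendsto_atTop_ciInf hanti ⟨c, by rintro _ ⟨N, rfl⟩; exact hb N⟩)

end Pool.Agent.Results.MP_271f9a_pr.Holds
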